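import Mathlib

/-!
# Relations between permuted numbers: the supports cover the orbits
-/

set_option autoImplicit false
set_option linter.unusedSectionVars false

namespace Run7.h237.AR

open Finset Module

section half

variable {X : Type*} [Fintype X] [DecidableEq X]

/-- A half system. -/
lemma exists_half (inv : X → X) (hinv : ∀ x, inv (inv x) = x) (hne : ∀ x, inv x ≠ x) :
    ∃ v : X → ℤ, (∀ x, v x = 1 ∨ v x = -1) ∧ ∀ x, v (inv x) = - v x := by
  let e := Fintype.equivFin X
  refine ⟨fun x => if e x < e (inv x) then 1 else -1, fun x => ?_, fun x => ?_⟩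
  · by_cases h : e x < e (inv x)
    · left; simp [h]
    · right; simp [h]
  · simp only [hinv]
    have h1 : e x ≠ e (inv x) := fun h => hne x (e.injective h).symm
    by_cases h : e x < e (inv x)
    · have h2 : ¬ e (inv x) < e x := not_lt.mpr h.le
      simp [h, h2]
    · have h2 : e (inv x) < e x := lt_of_le_of_ne (not_lt.mp h) (Ne.symm h1)
      simp [h, h2]

lemma card_half (inv : X → X) (hinv : ∀ x, inv (inv x) = x) (v : X → ℤ)
    (hv : ∀ x, v x = 1 ∨ v x = -1) (hvn : ∀ x, v (inv x) = - v x) :
    Fintype.card X = 2 * (univ.filter (fun x => v x = 1)).card := by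
  have h1 : (univ.filter (fun x => v x = -1)).card = (univ.filter (fun x => v x = 1)).card := by
    refine Finset.card_nbij' inv inv ?_ ?_ ?_ ?_
    · intro x hx
      simp only [coe_filter, mem_univ, true_and, Set.mem_ofPred_eq] at hx ⊢
      rw [hvn, hx]; norm_num
    · intro x hx
      simp only [coe_filter, mem_univ, true_and, Set.mem_ofPred_eq] at hx ⊢
      rw [hvn, hx]
    · intro x _; exact hinv x
    · intro x _; exact hinv x
  have h2 := Finset.card_filter_add_card_filter_not (s := (univ : Finset X)) (fun x => v x = 1)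
  have h3 : (univ.filter (fun x => ¬ v x = 1)) = univ.filter (fun x => v x = -1) := by
    apply filter_congr
    intro x _
    rcases hv x with h | h <;> rw [h] <;> norm_num
  rw [h3, h1, card_univ] at h2
  omega

end half

section cover

variable {X G A : Type*} [Fintype X] [DecidableEq X] [Group G] [MulAction G X] [AddCommGroup A]
  {inv : X → X} (hinv : ∀ x, inv (inv x) = x) (hne : ∀ x, inv x ≠ x)
  (hG : ∀ (g : G) x, g • inv x = inv (g • x)) {θ : X → A} (hθ : ∀ x, θ (inv x) = - θ x)

include hinv hne hG hθ

/-- The translates of a relation span a space of small dimension. -/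
theorem card_basis {δ : ℕ}
    (hfr : Fintype.card X ≤ 2 * (Module.finrank ℤ (Submodule.span ℤ (Set.range θ)) + δ))
    {c : X → ℤ} (hc : ∀ x, c (inv x) = - c x) (hrel : ∀ g : G, ∑ x, c x • θ (g • x) = 0)
    {κ : Type*} [Fintype κ] (g : κ → G)
    (hli : LinearIndependent ℚ (fun k : κ => fun x : X => ((c ((g k)⁻¹ • x) : ℤ) : ℚ))) :
    Fintype.card κ ≤ δ := by
  classical
  obtain ⟨v, hv, hvn⟩ := exists_half inv hinv hne
  set S := univ.filter (fun x => v x = 1) with hS
  have hcard := card_half inv hinv v hv hvn
  rw [← hS] at hcard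
  let Θ : (X → ℤ) →ₗ[ℤ] A := Fintype.linearCombination ℤ θ
  have hΘ : ∀ n : X → ℤ, Θ n = ∑ x, n x • θ x := fun n => Fintype.linearCombination_apply ℤ θ n
  have hrange : LinearMap.range Θ = Submodule.span ℤ (Set.range θ) :=
    Fintype.range_linearCombination ℤ θ
  -- rank-nullity
  have hrn : finrank ℤ (Submodule.span ℤ (Set.range θ)) + finrank ℤ (LinearMap.ker Θ) =
      Fintype.card X := by
    have h1 := Submodule.finrank_quotient_add_finrank (R := ℤ) (LinearMap.ker Θ)
    have h2 : finrank ℤ ((X → ℤ) ⧸ LinearMap.ker Θ) =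
        finrank ℤ (Submodule.span ℤ (Set.range θ)) := by
      rw [← hrange]
      exact LinearEquiv.finrank_eq (Θ.quotKerEquivRange)
    rw [h2, Module.finrank_fintype_fun_eq_card] at h1
    exact h1
  -- the family
  let fam : κ ⊕ S → LinearMap.ker Θ := fun t => match t with
    | Sum.inl k => ⟨fun x => c ((g k)⁻¹ • x), by
        rw [LinearMap.mem_ker, hΘ, ← hrel (g k)]
        symm
        refine Fintype.sum_equiv (MulAction.toPerm (g k)) _ _ ?_
        intro x
        simp only [MulAction.toPerm_apply, inv_smul_smul]⟩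
    | Sum.inr s => ⟨fun x => (if x = s.1 then 1 else 0) + (if x = inv s.1 then 1 else 0), by
        rw [LinearMap.mem_ker, hΘ]
        simp only [add_smul, ite_smul, one_smul, zero_smul, sum_add_distrib, sum_ite_eq',
          mem_univ, if_true]
        rw [hθ, add_neg_cancel]⟩
  have hfam : LinearIndependent ℤ fam := by
    rw [Fintype.linearIndependent_iff]
    intro a ha
    have h1 : ∀ x, ∑ k, a (Sum.inl k) * c ((g k)⁻¹ • x) + ∑ s : S, a (Sum.inr s) *
        ((if x = s.1 then 1 else 0) + (if x = inv s.1 then 1 else 0)) = 0 := by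
      intro x
      have h2 := congrArg (fun n : LinearMap.ker Θ => (n : X → ℤ) x) ha
      simp only [Fintype.sum_sum_type, Submodule.coe_add, Submodule.coe_sum, Submodule.coe_smul,
        Pi.add_apply, Finset.sum_apply, Pi.smul_apply, smul_eq_mul, Submodule.coe_zero,
        Pi.zero_apply] at h2
      exact h2
    have hodd : ∀ x, ∑ k, a (Sum.inl k) * c ((g k)⁻¹ • inv x) =
        - ∑ k, a (Sum.inl k) * c ((g k)⁻¹ • x) := by
      intro x
      rw [← sum_neg_distrib]
      refine sum_congr rfl fun k _ => ?_
      rw [hG, hc]; ring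
    have heven : ∀ x, ∑ s : S, a (Sum.inr s) * ((if inv x = s.1 then 1 else 0) +
        (if inv x = inv s.1 then 1 else 0)) = ∑ s : S, a (Sum.inr s) *
        ((if x = s.1 then 1 else 0) + (if x = inv s.1 then 1 else 0)) := by
      intro x
      refine sum_congr rfl fun s _ => ?_
      have e1 : (inv x = s.1) ↔ (x = inv s.1) := by
        constructor
        · intro h; rw [← h, hinv]
        · intro h; rw [h, hinv]
      have e2 : (inv x = inv s.1) ↔ (x = s.1) := by
        constructor
        · intro h; rw [← hinv x, h, hinv]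
        · intro h; rw [h]
      simp only [e1, e2]
      ring
    have hA : ∀ x, ∑ k, a (Sum.inl k) * c ((g k)⁻¹ • x) = 0 := by
      intro x
      have h2 := h1 x
      have h3 := h1 (inv x)
      rw [hodd, heven] at h3
      linarith
    have hB : ∀ x, ∑ s : S, a (Sum.inr s) * ((if x = s.1 then 1 else 0) +
        (if x = inv s.1 then 1 else 0)) = 0 := by
      intro x
      have h2 := h1 x
      rw [hA x, zero_add] at h2
      exact h2
    rintro (k | s)
    · have h2 := Fintype.linearIndependent_iff.mp hli (fun k => (a (Sum.inl k) : ℚ)) (by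
        funext x
        simp only [Finset.sum_apply, Pi.smul_apply, smul_eq_mul, Pi.zero_apply]
        have h3 := hA x
        exact_mod_cast h3) k
      exact_mod_cast h2
    · have h2 := hB s.1
      rw [Finset.sum_eq_single s] at h2
      · rw [if_pos rfl, if_neg (fun h => hne s.1 h.symm), add_zero, mul_one] at h2
        exact h2
      · intro s' _ hs'
        have e1 : s.1 ≠ s'.1 := fun h => hs' (Subtype.ext h.symm)
        have e2 : s.1 ≠ inv s'.1 := by
          intro h
          have h3 : v s.1 = 1 := (mem_filter.mp s.2).2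
          have h4 : v s'.1 = 1 := (mem_filter.mp s'.2).2
          rw [h, hvn, h4] at h3
          norm_num at h3
        rw [if_neg e1, if_neg e2]; ring
      · intro h; exact absurd (mem_univ _) h
  have h5 := hfam.fintype_card_le_finrank
  rw [Fintype.card_sum, Fintype.card_coe] at h5
  omega

/-- **The supports cover the orbits.** -/
theorem cover {δ : ℕ}
    (hfr : Fintype.card X ≤ 2 * (Module.finrank ℤ (Submodule.span ℤ (Set.range θ)) + δ))
    {c : X → ℤ} (hc : ∀ x, c (inv x) = - c x) (hrel : ∀ g : G, ∑ x, c x • θ (g • x) = 0)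
    {x0 : X} (hx0 : c x0 ≠ 0) (O : Finset X) (hO : ∀ x ∈ O, ∃ g : G, g • x0 = x)
    (hO2 : ∀ (g : G), ∀ x ∈ O, g • x ∈ O) :
    O.card ≤ δ * (O.filter (fun x => c x ≠ 0)).card := by
  classical
  let tr : G → X → ℚ := fun g x => ((c (g⁻¹ • x) : ℤ) : ℚ)
  obtain ⟨b, hbT, hspan, hli⟩ := exists_linearIndependent ℚ (Set.range tr)
  have hfin : Finite b := hli.finite
  have hft : Fintype b := Fintype.ofFinite b
  choose g hg using fun f : b => hbT f.2
  have h1 : Fintype.card b ≤ δ := by
    refine card_basis hinv hne hG hθ hfr hc hrel g ?_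
    have h2 : (fun k : b => fun x : X => ((c ((g k)⁻¹ • x) : ℤ) : ℚ)) = fun k : b => (k : X → ℚ) := by
      funext k
      exact hg k
    rw [h2]
    exact hli
  have h2 : O ⊆ (univ : Finset b).biUnion (fun f => O.filter (fun x => c ((g f)⁻¹ • x) ≠ 0)) := by
    intro x hx
    obtain ⟨h, rfl⟩ := hO x hx
    rw [mem_biUnion]
    by_contra hcon
    push Not at hcon
    have h3 : ∀ f ∈ b, f (h • x0) = 0 := by
      intro f hf
      have h4 := hcon ⟨f, hf⟩ (mem_univ _)
      rw [mem_filter] at h4
      push Not at h4
      have h5 := h4 hx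
      have h6 := congrFun (hg ⟨f, hf⟩) (h • x0)
      simp only [tr, h5, Int.cast_zero] at h6
      exact h6.symm
    have h4 : tr h ∈ Submodule.span ℚ b := by
      rw [hspan]
      exact Submodule.subset_span ⟨h, rfl⟩
    have h5 : ∀ f ∈ Submodule.span ℚ b, f (h • x0) = 0 := by
      intro f hf
      induction hf using Submodule.span_induction with
      | mem f hf => exact h3 f hf
      | zero => rfl
      | add f f' _ _ h6 h7 => rw [Pi.add_apply, h6, h7, add_zero]
      | smul a f _ h6 => rw [Pi.smul_apply, h6, smul_zero]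
    have h6 := h5 _ h4
    simp only [tr, inv_smul_smul] at h6
    exact hx0 (by exact_mod_cast h6)
  have h3 : ∀ f : b, (O.filter (fun x => c ((g f)⁻¹ • x) ≠ 0)).card =
      (O.filter (fun x => c x ≠ 0)).card := by
    intro f
    refine Finset.card_nbij' (fun x => (g f)⁻¹ • x) (fun x => g f • x) ?_ ?_ ?_ ?_
    · intro x hx
      simp only [coe_filter, Set.mem_ofPred_eq] at hx ⊢
      exact ⟨hO2 _ _ hx.1, hx.2⟩
    · intro x hx
      simp only [coe_filter, Set.mem_ofPred_eq] at hx ⊢
      exact ⟨hO2 _ _ hx.1, by rw [inv_smul_smul]; exact hx.2⟩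
    · intro x _; simp
    · intro x _; simp
  calc O.card ≤ _ := card_le_card h2
    _ ≤ ∑ f : b, (O.filter (fun x => c ((g f)⁻¹ • x) ≠ 0)).card := card_biUnion_le
    _ = Fintype.card b * (O.filter (fun x => c x ≠ 0)).card := by
        rw [sum_congr rfl (fun f _ => h3 f), sum_const, card_univ, smul_eq_mul]
    _ ≤ _ := Nat.mul_le_mul_right _ h1

end cover

end Run7.h237.AR
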