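import Mathlib
import Pool.Agent.H194R3.Weil.Low
import Pool.Agent.H204R3.GP.FrobG
import Pool.Agent.Run7.h237.AR.Cover

/-!
# Multiplicative relations of small length between Weil numbers are trivial
-/

set_option autoImplicit false
set_option linter.unusedSectionVars false

namespace Run7.h237.AR

open NumberField Module Finset Pool.Agent.H925R2 Pool.Agent.H485R3 Pool.Agent.H204R3.CM
  Pool.Agent.H868R3.TwoOdd Pool.Agent.H194R3.CM Pool.Agent.H194R3.Tate

/-- The angle rank: the rank of the multiplicative group generated by the complex numbers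
`φ (π i) ^ 2 / q`, `φ` a complex embedding of the field `K i`. -/
noncomputable def angleRank {I : Type*} {K : I → Type*} [∀ i, Field (K i)] (q : ℝ)
    (π : ∀ i, K i) : ℕ :=
  finrank ℤ (Submodule.span ℤ {u : Additive ℂˣ | ∃ (i : I) (φ : K i →+* ℂ),
    ((u.toMul : ℂˣ) : ℂ) = φ (π i) ^ 2 / q})

section

variable {I : Type*} [Fintype I] {K : I → Type*} [∀ i, Field (K i)]
  [∀ i, NumberField (K i)] [∀ i, IsCMField (K i)]
  {L : Type*} [Field L] [NumberField L] [IsGalois ℚ L] [DecidableEq (Σ i, (K i →+* L))]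
  {q : ℚ} (hq : 0 < q) {π : ∀ i, K i} (hweil : ∀ i, ∀ φ : K i →+* ℂ, ‖φ (π i)‖ ^ 2 = (q : ℝ))
  (j : L →+* ℂ)

/-- The numbers. -/
noncomputable def tht (hq : 0 < q) (hweil : ∀ i, ∀ φ : K i →+* ℂ, ‖φ (π i)‖ ^ 2 = (q : ℝ))
    (j : L →+* ℂ) (x : Σ i, (K i →+* L)) : ℂˣ :=
  Units.mk0 (j (x.2 (π x.1)) ^ 2 / ((q : ℝ) : ℂ)) (by
    apply div_ne_zero
    · exact pow_ne_zero 2 ((map_ne_zero j).2 ((map_ne_zero x.2).2 (weil_ne hq (hweil x.1))))
    · exact_mod_cast hq.ne')

lemma tht_val (x : Σ i, (K i →+* L)) :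
    (tht hq hweil j x : ℂ) = j (x.2 (π x.1)) ^ 2 / ((q : ℝ) : ℂ) := rfl

lemma tht_inj (x : Σ i, (K i →+* L)) : tht hq hweil j (inj x) = (tht hq hweil j x)⁻¹ := by
  obtain ⟨i, φ⟩ := x
  apply Units.ext
  rw [Units.val_inv_eq_inv_val, tht_val, tht_val]
  change j (cbar φ (π i)) ^ 2 / ((q : ℝ) : ℂ) = (j (φ (π i)) ^ 2 / ((q : ℝ) : ℂ))⁻¹
  have h0 : φ (π i) ≠ 0 := (map_ne_zero φ).2 (weil_ne hq (hweil i))
  have h1 : j (φ (π i)) ≠ 0 := (map_ne_zero j).2 h0
  have h2 : ((q : ℝ) : ℂ) ≠ 0 := by exact_mod_cast hq.ne'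
  rw [weil_cbar hq (hweil i), map_div₀, map_ratCast]
  have h3 : ((q : ℚ) : ℂ) = ((q : ℝ) : ℂ) := by push_cast; rfl
  rw [h3]
  field_simp

lemma range_tht (h : ∀ i, ∀ ψ : K i →+* ℂ, ∃ φ : K i →+* L, j.comp φ = ψ) :
    Set.range (fun x => Additive.ofMul (tht hq hweil j x)) =
      {u : Additive ℂˣ | ∃ (i : I) (φ : K i →+* ℂ),
        ((u.toMul : ℂˣ) : ℂ) = φ (π i) ^ 2 / ((q : ℝ) : ℂ)} := by
  ext u
  constructor
  · rintro ⟨⟨i, φ⟩, rfl⟩
    exact ⟨i, j.comp φ, rfl⟩
  · rintro ⟨i, ψ, hψ⟩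
    obtain ⟨φ, rfl⟩ := h i ψ
    refine ⟨⟨i, φ⟩, ?_⟩
    apply Additive.toMul.injective
    apply Units.ext
    exact hψ.symm

lemma sum_fib {κ X A : Type*} [Fintype κ] [Fintype X] [DecidableEq X] [AddCommGroup A] (J : κ → X)
    (F : X → A) : ∑ l, F (J l) = ∑ x, (((univ.filter (fun l => J l = x)).card : ℕ) : ℤ) • F x := by
  have h1 : ∀ l, F (J l) = ∑ x, if J l = x then F x else 0 := by
    intro l
    rw [sum_ite_eq, if_pos (mem_univ _)]
  rw [sum_congr rfl (fun l _ => h1 l), sum_comm]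
  refine sum_congr rfl fun x _ => ?_
  rw [← sum_filter, sum_const, natCast_zsmul]

lemma rel_abs {κ X A : Type*} [Fintype κ] [Fintype X] [DecidableEq X] [AddCommGroup A]
    (J : κ → X) {inv : X → X} (hinv : ∀ x, inv (inv x) = x) (F : X → A)
    (hF : ∀ x, F (inv x) = - F x) (s : ℕ) (hrel : s • ∑ l, F (J l) = 0) :
    ∑ x, ((s : ℤ) * ((((univ.filter (fun l => J l = x)).card : ℕ) : ℤ) -
      (((univ.filter (fun l => J l = inv x)).card : ℕ) : ℤ))) • F x = 0 := by
  rw [sum_fib J F] at hrel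
  have h1 : ∑ x, (((univ.filter (fun l => J l = inv x)).card : ℕ) : ℤ) • F x =
      - ∑ x, (((univ.filter (fun l => J l = x)).card : ℕ) : ℤ) • F x := by
    rw [← sum_neg_distrib]
    refine sum_nbij' inv inv (fun _ _ => mem_univ _) (fun _ _ => mem_univ _)
      (fun y _ => hinv y) (fun y _ => hinv y) ?_
    intro y _
    rw [hF, smul_neg, neg_neg]
  have h3 : ∑ x, ((s : ℤ) * ((((univ.filter (fun l => J l = x)).card : ℕ) : ℤ) -
      (((univ.filter (fun l => J l = inv x)).card : ℕ) : ℤ))) • F x =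
      (s : ℤ) • (∑ x, (((univ.filter (fun l => J l = x)).card : ℕ) : ℤ) • F x -
        ∑ x, (((univ.filter (fun l => J l = inv x)).card : ℕ) : ℤ) • F x) := by
    rw [← sum_sub_distrib, smul_sum]
    refine sum_congr rfl fun x _ => ?_
    rw [mul_smul, sub_smul]
  rw [← natCast_zsmul] at hrel
  rw [h3, h1, sub_neg_eq_add, smul_add, hrel, add_zero]

include hq hweil in
/-- The supports of the relations are large. -/
theorem supp_large (h : ∀ i, ∀ ψ : K i →+* ℂ, ∃ φ : K i →+* L, j.comp φ = ψ)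
    {c : (Σ i, (K i →+* L)) → ℤ} (hc : ∀ x, c (inj x) = - c x)
    (hrel : ∀ u : L ≃ₐ[ℚ] L, ∑ x, c x • Additive.ofMul (tht hq hweil j (u • x)) = 0)
    (i : I) (φ₀ : K i →+* L) (hcx : c ⟨i, φ₀⟩ ≠ 0) :
    2 * finrank ℚ (maximalRealSubfield (K i)) ≤
      (∑ a, finrank ℚ (maximalRealSubfield (K a)) - angleRank (q : ℝ) π) *
        (univ.filter (fun φ : K i →+* L => c ⟨i, φ⟩ ≠ 0)).card := by
  classical
  set g : I → ℕ := fun a => finrank ℚ (maximalRealSubfield (K a)) with hg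
  have hcardi : ∀ i, Fintype.card (K i →+* L) = 2 * g i := by
    intro i
    have h0 : finrank (maximalRealSubfield (K i)) (K i) = 2 :=
      Algebra.IsQuadraticExtension.finrank_eq_two _ _
    rw [card_emb j (h i), ← finrank_mul_finrank ℚ (maximalRealSubfield (K i)) (K i),
      h0, mul_comm]
  let θ : (Σ i, (K i →+* L)) → Additive ℂˣ := fun x => Additive.ofMul (tht hq hweil j x)
  have hθ : ∀ x, θ (inj x) = - θ x := by
    intro x
    simp only [θ]
    rw [tht_inj]; rfl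
  have hG : ∀ (u : L ≃ₐ[ℚ] L) (x : Σ i, (K i →+* L)), u • inj x = inj (u • x) := by
    rintro u ⟨a, φ⟩
    rfl
  -- the orbit
  let O : Finset (Σ i, (K i →+* L)) := univ.filter (fun y => y.1 = i)
  have hOim : ∀ P : (Σ i, (K i →+* L)) → Prop, [DecidablePred P] → (O.filter P).card =
      (univ.filter (fun φ : K i →+* L => P ⟨i, φ⟩)).card := by
    intro P _
    symm
    refine card_bij (fun φ _ => (⟨i, φ⟩ : Σ i, (K i →+* L))) ?_ ?_ ?_
    · intro φ hφ
      exact mem_filter.mpr ⟨mem_filter.mpr ⟨mem_univ _, rfl⟩, (mem_filter.mp hφ).2⟩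
    · intro φ _ φ' _ h1
      exact eq_of_heq (Sigma.mk.inj_iff.1 h1).2
    · rintro ⟨i', φ⟩ hy
      have h2 := mem_filter.mp hy
      have h1 : i' = i := (mem_filter.mp h2.1).2
      subst h1
      exact ⟨φ, mem_filter.mpr ⟨mem_univ _, h2.2⟩, rfl⟩
  have hOcard : O.card = 2 * g i := by
    have h1 := hOim (fun _ => True)
    rw [filter_true, filter_true, card_univ, hcardi] at h1
    exact h1
  have hfr : Fintype.card (Σ i, (K i →+* L)) ≤
      2 * (finrank ℤ (Submodule.span ℤ (Set.range θ)) + (∑ a, g a - angleRank (q : ℝ) π)) := by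
    have h1 : finrank ℤ (Submodule.span ℤ (Set.range θ)) = angleRank (q : ℝ) π := by
      unfold angleRank
      rw [range_tht hq hweil j h]
    rw [h1, Fintype.card_sigma, sum_congr rfl (fun i _ => hcardi i), ← mul_sum]
    omega
  have hcov := cover (G := L ≃ₐ[ℚ] L) inj_inj (fun y h1 => by
      obtain ⟨a, φ⟩ := y
      exact cbar_ne φ (eq_of_heq (Sigma.mk.inj_iff.1 h1).2)) hG hθ hfr hc hrel hcx O
    (by
      rintro ⟨i', φ⟩ hy
      have h1 : i' = i := (mem_filter.mp hy).2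
      subst h1
      obtain ⟨u, hu⟩ := MulAction.exists_smul_eq (L ≃ₐ[ℚ] L) φ₀ φ
      exact ⟨u, congrArg (Sigma.mk i') hu⟩)
    (by
      intro u y hy
      exact mem_filter.mpr ⟨mem_univ _, (mem_filter.mp hy).2⟩)
  rw [hOcard, hOim] at hcov
  exact hcov

include hq hweil in
/-- **Short relations are trivial.** -/
theorem balanced (h : ∀ i, ∀ ψ : K i →+* ℂ, ∃ φ : K i →+* L, j.comp φ = ψ)
    {r : ℕ} (hr : ∀ J : Finset I, J.Nonempty →
      2 * r * (∑ a ∈ J, finrank ℚ (maximalRealSubfield (K a)) -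
        angleRank (q : ℝ) (fun i : J => π i)) < ∑ a ∈ J, finrank ℚ (maximalRealSubfield (K a)))
    {κ : Type*} [Fintype κ] (hκ : Fintype.card κ ≤ 2 * r) (J : κ → Σ i, (K i →+* L)) {s : ℕ}
    (hs : 0 < s) (hprod : (∏ l, (J l).2 (π (J l).1)) ^ (2 * s) =
      ((q : L) ^ Fintype.card κ) ^ s) (x : Σ i, (K i →+* L)) :
    (univ.filter (fun l => J l = x)).card = (univ.filter (fun l => J l = inj x)).card := by
  classical
  by_contra hcon
  set g : I → ℕ := fun a => finrank ℚ (maximalRealSubfield (K a)) with hg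
  let θ : (Σ i, (K i →+* L)) → Additive ℂˣ := fun x => Additive.ofMul (tht hq hweil j x)
  have hθ : ∀ x, θ (inj x) = - θ x := by
    intro x
    simp only [θ]
    rw [tht_inj]; rfl
  let cnt : (Σ i, (K i →+* L)) → ℤ := fun x => (((univ.filter (fun l => J l = x)).card : ℕ) : ℤ)
  let c : (Σ i, (K i →+* L)) → ℤ := fun x => (s : ℤ) * (cnt x - cnt (inj x))
  have hc : ∀ x, c (inj x) = - c x := by
    intro x
    simp only [c, inj_inj]; ring
  have hG : ∀ (u : L ≃ₐ[ℚ] L) (x : Σ i, (K i →+* L)), u • inj x = inj (u • x) := by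
    rintro u ⟨a, φ⟩
    rfl
  -- the relation
  have hrel0 : ∀ u : L ≃ₐ[ℚ] L, s • ∑ l, θ (u • J l) = 0 := by
    intro u
    have h1 : (∏ l, tht hq hweil j (u • J l)) ^ s = 1 := by
      apply Units.ext
      rw [Units.val_pow_eq_pow_val, Units.coe_prod, Units.val_one]
      simp only [tht_val]
      rw [prod_div_distrib, prod_const, card_univ, prod_pow, ← map_prod]
      have h2 : ∏ l, (u • J l).2 (π (u • J l).1) = u (∏ l, (J l).2 (π (J l).1)) := by
        rw [map_prod]; rfl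
      have h3 := congrArg (fun z => j (u z)) hprod
      simp only [map_pow, map_ratCast] at h3
      have h2q : ((q : ℝ) : ℂ) ≠ 0 := by exact_mod_cast hq.ne'
      rw [h2, div_pow, ← pow_mul, h3]
      have h4 : ((q : ℚ) : ℂ) = ((q : ℝ) : ℂ) := by push_cast; rfl
      rw [h4]
      exact div_self (pow_ne_zero _ (pow_ne_zero _ h2q))
    have h5 := congrArg Additive.ofMul h1
    rw [ofMul_pow, ofMul_prod, ofMul_one] at h5
    exact h5
  have hrel : ∀ u : L ≃ₐ[ℚ] L, ∑ x, c x • θ (u • x) = 0 := by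
    intro u
    refine rel_abs J inj_inj (fun x => θ (u • x)) (fun x => ?_) s (hrel0 u)
    rw [hG, hθ]
  have hcx : c x ≠ 0 := by
    simp only [c, cnt]
    apply mul_ne_zero
    · exact_mod_cast hs.ne'
    · intro h1
      apply hcon
      omega
  -- the fields involved
  let T : Finset I := univ.filter (fun i => ∃ φ : K i →+* L, c ⟨i, φ⟩ ≠ 0)
  have hxT : x.1 ∈ T := mem_filter.mpr ⟨mem_univ _, x.2, hcx⟩
  let c' : (Σ i : T, (K i.1 →+* L)) → ℤ := fun y => c ⟨y.1.1, y.2⟩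
  have hrel' : ∀ u : L ≃ₐ[ℚ] L, ∑ y : (Σ i : T, (K i.1 →+* L)), c' y •
      Additive.ofMul (tht (K := fun i : T => K i.1) (π := fun i : T => π i.1) hq
        (fun i => hweil i.1) j (u • y)) = 0 := by
    intro u
    rw [← hrel u, Fintype.sum_sigma, Fintype.sum_sigma, ← sum_subset (subset_univ T)]
    · rw [← sum_coe_sort T (fun i => ∑ φ : K i →+* L, c ⟨i, φ⟩ • θ (u • ⟨i, φ⟩))]
      rfl
    · intro i _ hi
      apply sum_eq_zero
      intro φ _
      have h1 : c ⟨i, φ⟩ = 0 := by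
        by_contra h2
        exact hi (mem_filter.mpr ⟨mem_univ _, φ, h2⟩)
      rw [h1, zero_smul]
  have hlarge : ∀ i ∈ T, 2 * g i ≤ (∑ a ∈ T, g a - angleRank (q : ℝ) (fun i : T => π i)) *
      (univ.filter (fun φ : K i →+* L => c ⟨i, φ⟩ ≠ 0)).card := by
    intro i hi
    obtain ⟨φ₀, hφ₀⟩ := (mem_filter.mp hi).2
    have h1 := supp_large (K := fun i : T => K i.1) (π := fun i : T => π i.1) hq
      (fun i => hweil i.1) j (fun i => h i.1) (c := c') (fun y => hc ⟨y.1.1, y.2⟩) hrel'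
      ⟨i, hi⟩ φ₀ hφ₀
    rw [sum_coe_sort T g] at h1
    exact h1
  -- the support
  have hsupp : ∑ i ∈ T, (univ.filter (fun φ : K i →+* L => c ⟨i, φ⟩ ≠ 0)).card ≤ 4 * r := by
    have h0 : ∑ i ∈ T, (univ.filter (fun φ : K i →+* L => c ⟨i, φ⟩ ≠ 0)).card ≤
        (univ.filter (fun y : (Σ i, (K i →+* L)) => c y ≠ 0)).card := by
      rw [← card_sigma]
      apply card_le_card_of_injOn (fun y => (y : Σ i, (K i →+* L)))
      · intro y hy
        rw [mem_coe, mem_sigma] at hy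
        exact mem_coe.mpr (mem_filter.mpr ⟨mem_univ _, (mem_filter.mp hy.2).2⟩)
      · intro y _ y' _ h1
        exact h1
    refine h0.trans ?_
    have h1 : (univ.filter (fun y : (Σ i, (K i →+* L)) => c y ≠ 0)) ⊆
        univ.image J ∪ univ.image (fun l => inj (J l)) := by
      intro y hy
      have h2 := (mem_filter.mp hy).2
      by_contra h3
      rw [mem_union, not_or, mem_image, mem_image] at h3
      push Not at h3
      apply h2
      have h4 : univ.filter (fun l => J l = y) = ∅ :=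
        filter_eq_empty_iff.mpr fun l _ => h3.1 l (mem_univ _)
      have h5 : univ.filter (fun l => J l = inj y) = ∅ :=
        filter_eq_empty_iff.mpr fun l _ h6 => h3.2 l (mem_univ _) (by rw [h6, inj_inj])
      simp only [c, cnt, h4, h5, card_empty, sub_self, mul_zero]
    calc _ ≤ _ := card_le_card h1
      _ ≤ _ := card_union_le _ _
      _ ≤ Fintype.card κ + Fintype.card κ := Nat.add_le_add (card_image_le) (card_image_le)
      _ ≤ 4 * r := by omega
  have h9 := hr T ⟨_, hxT⟩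
  have h10 := sum_le_sum hlarge
  rw [← mul_sum, ← mul_sum] at h10
  have h11 := h10.trans (Nat.mul_le_mul_left _ hsupp)
  have h12 : (∑ a ∈ T, g a - angleRank (q : ℝ) (fun i : T => π i)) * (4 * r) =
      2 * (2 * r * (∑ a ∈ T, g a - angleRank (q : ℝ) (fun i : T => π i))) := by ring
  rw [h12] at h11
  have h13 : 2 * r * (∑ a ∈ T, g a - angleRank (q : ℝ) (fun i : T => π i)) < ∑ a ∈ T, g a := h9
  omega

end

end Run7.h237.AR
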