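import Mathlib
import Pool.Agent.H204R3.GP.FrobG

/-!
# Tate forms of low degree are generated in degree two

The same as `Pool.Agent.H204R3.GP.TateG`, for the Lie algebra which kills the Tate forms of bounded
degree.
-/

set_option linter.unusedSectionVars false

namespace Run7.h237.AR

open Module Pool.Agent.H204R3.CM Pool.Agent.H204R3.SP Pool.Agent.H204R3.GP

noncomputable section

section lie

variable (M : ℕ) {Ω : Type*} [Field Ω] {V : Type*} [AddCommGroup V] [Module Ω V]
  {Γ : Type*} [Group Γ] (ρ : Representation Ω Γ V) (χ : Γ →* Ω)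

/-- The endomorphisms that kill all Tate forms in at most `2 * M` variables. -/
def lieTb : Submodule Ω (Module.End Ω V) where
  carrier := {X | ∀ m, m ≤ M → ∀ φ, IsTate ρ χ m φ → Kills X φ}
  zero_mem' := by
    intro m _ φ _ v
    refine Finset.sum_eq_zero fun k _ => ?_
    rw [LinearMap.zero_apply]
    exact φ.map_coord_zero k (Function.update_self _ _ _)
  add_mem' := by
    intro X Y hX hY m hm φ hφ v
    have h1 := hX m hm φ hφ v
    have h2 := hY m hm φ hφ v
    have h3 := congrArg₂ (fun x y : Ω => x + y) h1 h2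
    simp only [add_zero] at h3
    rw [← h3, ← Finset.sum_add_distrib]
    refine Finset.sum_congr rfl fun k _ => ?_
    rw [LinearMap.add_apply, MultilinearMap.map_update_add]
  smul_mem' := by
    intro c X hX m hm φ hφ v
    have h1 := hX m hm φ hφ v
    rw [← mul_zero c, ← h1, Finset.mul_sum]
    refine Finset.sum_congr rfl fun k _ => ?_
    rw [LinearMap.smul_apply, MultilinearMap.map_update_smul, smul_eq_mul]

theorem lieTb_bracket {X Y : Module.End Ω V} (hX : X ∈ lieTb M ρ χ) (hY : Y ∈ lieTb M ρ χ) :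
    X * Y - Y * X ∈ lieTb M ρ χ :=
  fun m hm φ hφ => kills_bracket (hX m hm φ hφ) (hY m hm φ hφ)

theorem lieTb_conj (s : Γ) {X : Module.End Ω V} (hX : X ∈ lieTb M ρ χ) :
    ρ s * X * ρ s⁻¹ ∈ lieTb M ρ χ := by
  intro m hm φ hφ v
  obtain ⟨Δ, hΔ, hφ⟩ := hφ
  let φ' : MultilinearMap Ω (fun _ : Fin m × Fin 2 => V) Ω := φ.compLinearMap (fun _ => ρ s)
  have hφ' : IsTate ρ χ m φ' := by
    refine ⟨Δ.comap (MulAut.conj s).toMonoidHom, ⟨by
      rw [Subgroup.index_comap_of_surjective _ (MulAut.conj s).surjective]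
      exact hΔ.index_ne_zero⟩, fun t ht v => ?_⟩
    have h1 : s * t * s⁻¹ ∈ Δ := by
      rw [Subgroup.mem_comap] at ht
      exact ht
    have h2 := hφ _ h1 (fun k => ρ s (v k))
    change φ (fun k => ρ s (ρ t (v k))) = χ t ^ m * φ (fun k => ρ s (v k))
    have h3 : ∀ k, ρ (s * t * s⁻¹) (ρ s (v k)) = ρ s (ρ t (v k)) := by
      intro k
      rw [map_mul, map_mul, Module.End.mul_apply, Module.End.mul_apply, rho_inv]
    have h4 : χ (s * t * s⁻¹) = χ t := by
      rw [map_mul, map_mul, mul_right_comm, ← map_mul, mul_inv_cancel, map_one, one_mul]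
    simp only [h3, h4] at h2
    exact h2
  have h1 := hX m hm φ' hφ' (fun k => ρ s⁻¹ (v k))
  rw [← h1]
  refine Finset.sum_congr rfl fun k _ => ?_
  change _ = φ (fun l => ρ s (Function.update (fun k => ρ s⁻¹ (v k)) k (X (ρ s⁻¹ (v k))) l))
  congr 1
  funext l
  by_cases h : l = k
  · subst h
    rw [Function.update_self, Function.update_self]
    rfl
  · rw [Function.update_of_ne h, Function.update_of_ne h, rho_inv']

end lie

variable (M : ℕ) {Ω : Type*} [Field Ω] [CharZero Ω] {V : Type*} [AddCommGroup V] [Module Ω V]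
  {R : Type*} [Fintype R] [DecidableEq R] (e : Basis R Ω V) {inv : R → R} {jj : R → Ω}
  (hinv : ∀ x, inv (inv x) = x) (hne : ∀ x, inv x ≠ x)
  (hjj : ∀ x, jj (inv x) = -jj x) (hj0 : ∀ x, jj x ≠ 0)
  (ω : V →ₗ[Ω] V →ₗ[Ω] Ω) (hω : ∀ x y, ω (e x) (e y) = JJ inv jj x y)
  {Γ : Type*} [Group Γ] (ρ : Representation Ω Γ V) (χ : Γ →* Ω)

theorem lieTb_bil (hM : 1 ≤ M) {B : V →ₗ[Ω] V →ₗ[Ω] Ω} (hB : IsTate2 ρ χ B)
    {X : Module.End Ω V} (hX : X ∈ lieTb M ρ χ) (u w : V) : B (X u) w + B u (X w) = 0 := by
  obtain ⟨Δ, hΔ, hB⟩ := hB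
  have h0 : IsTate ρ χ 1 (prodMap (fun _ : Fin 1 => bil2 B)) := by
    refine ⟨Δ, hΔ, fun s hs v => ?_⟩
    rw [prodMap_apply, prodMap_apply, Fin.prod_univ_one, Fin.prod_univ_one, bil2_apply, bil2_apply,
      hB s hs, pow_one]
  have h1 := hX 1 hM _ h0 (fun k => if k.2 = 0 then u else w)
  rw [Fintype.sum_prod_type, Fin.sum_univ_one, Fin.sum_univ_two] at h1
  simp only [prodMap_apply, Fin.prod_univ_one, bil2_apply] at h1
  simpa using h1

theorem lieTb_sp (hM : 1 ≤ M) (ω : V →ₗ[Ω] V →ₗ[Ω] Ω)
    (hω : ∀ s u v, ω (ρ s u) (ρ s v) = χ s * ω u v)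
    {X : Module.End Ω V} (hX : X ∈ lieTb M ρ χ) (u w : V) : ω (X u) w + ω u (X w) = 0 := by
  have h1 := hX 1 hM _ (isTate_om ρ χ ω hω) (fun k => if k.2 = 0 then u else w)
  rw [Fintype.sum_prod_type, Fin.sum_univ_one, Fin.sum_univ_two] at h1
  simp only [Pool.Agent.H204R3.CM.prodMap_apply, Fin.prod_univ_one, bil2_apply] at h1
  simpa using h1

include hinv hj0 hω in
theorem lieTb_comm (hM : 1 ≤ M) (hωρ : ∀ s u v, ω (ρ s u) (ρ s v) = χ s * ω u v) (Δ : Subgroup Γ)
    (hΔ : Δ.FiniteIndex) (P : Module.End Ω V) (hP : ∀ s ∈ Δ, ∀ v, P (ρ s v) = ρ s (P v)) :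
    ∀ X ∈ lieTb M ρ χ, ∀ v, X (P v) = P (X v) := by
  intro X hX v
  have hB : IsTate2 ρ χ (ω.comp P) := by
    refine ⟨Δ, hΔ, fun s hs u v => ?_⟩
    rw [LinearMap.comp_apply, LinearMap.comp_apply, hP s hs, hωρ]
  rw [← sub_eq_zero]
  apply nondeg_basis e hinv hj0 ω hω
  intro w
  have h1 := lieTb_bil M ρ χ hM hB hX v w
  have h2 := lieTb_sp M ρ χ hM ω hωρ hX (P v) w
  rw [LinearMap.comp_apply, LinearMap.comp_apply] at h1
  rw [map_sub, LinearMap.sub_apply]
  linear_combination h2 - h1

theorem DD_mem_low (inv : R → R)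
    (hbal : ∀ (m : ℕ), m ≤ M → ∀ (φ : MultilinearMap Ω (fun _ : Fin m × Fin 2 => V) Ω),
      IsTate ρ χ m φ →
      ∀ I : Fin m × Fin 2 → R, φ (fun k => e (I k)) ≠ 0 → ∀ y,
        (Finset.univ.filter (fun k => I k = y)).card =
          (Finset.univ.filter (fun k => I k = inv y)).card) (y : R) :
    DD e inv y ∈ lieTb M ρ χ := by
  intro m hm φ hφ
  refine kills_of_basis e _ _ fun I => ?_
  have h1 : ∀ k, φ (Function.update (fun l => e (I l)) k (DD e inv y (e (I k)))) =
      dd inv y (I k) * φ (fun l => e (I l)) := by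
    intro k
    rw [DD_basis, MultilinearMap.map_update_smul, smul_eq_mul]
    congr 2
    exact Function.update_eq_self k (fun l => e (I l))
  rw [Finset.sum_congr rfl (fun k _ => h1 k), ← Finset.sum_mul]
  by_cases h0 : φ (fun l => e (I l)) = 0
  · rw [h0, mul_zero]
  · have h2 := hbal m hm φ hφ I h0 y
    have h3 : ∑ k, (dd inv y (I k) : Ω) = 0 := by
      unfold dd
      rw [Finset.sum_sub_distrib, Finset.sum_boole, Finset.sum_boole, h2, sub_self]
    rw [h3, zero_mul]

include hinv hne hjj hj0 hω in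
/-- Tate forms are linear combinations of products of Tate forms of degree two. -/
theorem tateG_mem_low (hM : 1 ≤ M)
    (hωρ : ∀ s u v, ω (ρ s u) (ρ s v) = χ s * ω u v)
    (hss : HasProj ρ)
    (hbal : ∀ (m : ℕ), m ≤ M → ∀ (φ : MultilinearMap Ω (fun _ : Fin m × Fin 2 => V) Ω),
      IsTate ρ χ m φ →
      ∀ I : Fin m × Fin 2 → R, φ (fun k => e (I k)) ≠ 0 → ∀ y,
        (Finset.univ.filter (fun k => I k = y)).card =
          (Finset.univ.filter (fun k => I k = inv y)).card)
    {m : ℕ} (hm : m ≤ M) (φ : MultilinearMap Ω (fun _ : Fin m × Fin 2 => V) Ω)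
    (hφ : IsTate ρ χ m φ) :
    φ ∈ Submodule.span Ω (PT ρ χ m) := by
  classical
  have hD : ∀ y : R, DD e inv y ∈ lieTb M ρ χ := DD_mem_low M e ρ χ inv hbal
  have hbr : ∀ X ∈ lieTb M ρ χ, ∀ Y ∈ lieTb M ρ χ, X * Y - Y * X ∈ lieTb M ρ χ :=
    fun X hX Y hY => lieTb_bracket M ρ χ hX hY
  have hsp : ∀ X ∈ lieTb M ρ χ, ∀ u w, ω (X u) w + ω u (X w) = 0 :=
    fun X hX u w => lieTb_sp M ρ χ hM ω hωρ hX u w
  have hconj : ∀ (s : Γ) (X : Module.End Ω V), X ∈ lieTb M ρ χ → ρ s * X * ρ s⁻¹ ∈ lieTb M ρ χ :=
    fun s X hX => lieTb_conj M ρ χ s hX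
  have hcomm := lieTb_comm M e hinv hj0 ω hω ρ χ hM hωρ
  -- the classes
  let S : Setoid R :=
    { r := fun x z => z ∈ CC e (lieTb M ρ χ) ω inv x
      iseqv :=
        { refl := fun x => Or.inl rfl
          symm := fun h => CC_symm e (lieTb M ρ χ) hbr hD hinv hne hjj hj0 ω hω hsp ρ hconj hss hcomm h
          trans := fun h h' => CC_trans e (lieTb M ρ χ) hbr hD hinv hne hjj hj0 ω hω hsp h h' } }
  let cls : R → Quotient S := Quotient.mk S
  have hcls' : ∀ x z, cls x = cls z ↔ z ∈ CC e (lieTb M ρ χ) ω inv x := fun x z => Quotient.eq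
  have hcls : ∀ x y, cls x = cls y → cls (inv x) = cls (inv y) := by
    intro x y h
    symm
    rw [hcls'] at h ⊢
    exact CC_inv e (lieTb M ρ χ) ω hinv h
  have _ : Fintype (Quotient S) := Fintype.ofFinite _
  -- the forms of the classes are Tate forms
  have hPC : ∀ (c : Quotient S) (y : R), ∀ v ∈ Submodule.span Ω (e '' CC e (lieTb M ρ χ) ω inv y),
      PC e cls c v = if cls y = c then v else 0 := by
    intro c y v hv
    induction hv using Submodule.span_induction with
    | mem v hv =>
      obtain ⟨z, hz, rfl⟩ := hv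
      rw [PC_basis, ← (hcls' y z).2 hz]
    | zero => rw [map_zero]; split_ifs <;> rfl
    | add a b _ _ ha hb =>
      rw [map_add, ha, hb]
      split_ifs
      · rfl
      · rw [add_zero]
    | smul c' a _ ha =>
      rw [map_smul, ha]
      split_ifs
      · rfl
      · rw [smul_zero]
  choose Δx hΔx hΔx' using fun x : R => exists_stabilizer e (lieTb M ρ χ) hD hne ρ hconj
    (Submodule.span Ω (e '' CC e (lieTb M ρ χ) ω inv x))
    (UU_stable e (lieTb M ρ χ) hbr hD hinv hne hjj hj0 ω hω hsp x)
  let BC : Quotient S → (V →ₗ[Ω] V →ₗ[Ω] Ω) := fun c => ω.comp (PC e cls c)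
  have hBC : ∀ c, IsTate2 ρ χ (BC c) := by
    intro c
    refine ⟨⨅ x, Δx x, Subgroup.finiteIndex_iInf hΔx, fun s hs u v => ?_⟩
    have h1 : ∀ v, PC e cls c (ρ s v) = ρ s (PC e cls c v) := by
      have h2 : (PC e cls c).comp (ρ s) = (ρ s).comp (PC e cls c) := by
        refine e.ext fun y => ?_
        rw [LinearMap.comp_apply, LinearMap.comp_apply, hPC c y (ρ s (e y)) (hΔx' y s
          ((Subgroup.mem_iInf.1 hs) y) _ (Submodule.subset_span ⟨y, Or.inl rfl, rfl⟩)), PC_basis]
        split_ifs
        · rfl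
        · rw [map_zero]
      exact fun v => congrArg (fun T : Module.End Ω V => T v) h2
    change ω (PC e cls c (ρ s u)) (ρ s v) = χ s * ω (PC e cls c u) v
    rw [h1, hωρ]
  have hBC' : ∀ c x y, BC c (e x) (e y) = if cls x = c then JJ inv jj x y else 0 := by
    intro c x y
    change ω (PC e cls c (e x)) (e y) = _
    rw [PC_basis]
    split_ifs
    · rw [hω]
    · rw [map_zero, LinearMap.zero_apply]
  -- coefficients
  let coef : MultilinearMap Ω (fun _ : Fin m × Fin 2 => V) Ω →ₗ[Ω] ((Fin m × Fin 2 → R) → Ω) :=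
    { toFun := fun φ I => φ (fun k => e (I k))
      map_add' := fun _ _ => rfl
      map_smul' := fun _ _ => rfl }
  have hinj : Function.Injective coef := fun φ φ' h =>
    Basis.ext_multilinear (fun _ => e) fun I => congrFun h I
  have hrel : ∀ b c, cls (inv b) = cls c → ∀ I : Fin m × Fin 2 → R,
      ∑ k, (JJ inv jj b (I k) * coef φ (Function.update I k c) +
        JJ inv jj c (I k) * coef φ (Function.update I k b)) = 0 := by
    intro b c hbc I
    have h2 : SS ω (e b) (e c) ∈ lieTb M ρ χ :=
      SS_mem' e (lieTb M ρ χ) hbr hD hinv hne hjj hj0 ω hω hsp ((hcls' _ _).1 hbc)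
    have h3 := h2 m hm φ hφ (fun k => e (I k))
    rw [← h3]
    refine Finset.sum_congr rfl fun k _ => ?_
    rw [SS_apply, hω, hω, MultilinearMap.map_update_add, MultilinearMap.map_update_smul,
      MultilinearMap.map_update_smul, smul_eq_mul, smul_eq_mul]
    have h4 : ∀ z : R, coef φ (Function.update I k z) =
        φ (Function.update (fun k => e (I k)) k (e z)) := by
      intro z
      change φ (fun l => e (Function.update I k z l)) = _
      congr 1
      funext l
      by_cases hl : l = k
      · subst hl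
        rw [Function.update_self, Function.update_self]
      · rw [Function.update_of_ne hl, Function.update_of_ne hl]
    rw [h4, h4]
  let F : (Fin m × Fin 2 → Quotient S) → ((Fin m × Fin 2 → R) → Ω) := fun t I =>
    if (fun k => cls (I k)) = t then coef φ I else 0
  have hF : coef φ = ∑ t, F t := by
    funext I
    rw [Finset.sum_apply]
    simp only [F]
    rw [Finset.sum_ite_eq, if_pos (Finset.mem_univ _)]
  have hFt : ∀ t, F t ∈ InvG cls inv jj (Fin m × Fin 2) t := by
    intro t
    refine ⟨fun b c hbc I => ?_, fun I hI k => ?_⟩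
    · have htype : ∀ (k : Fin m × Fin 2) (z : R), cls (I k) = cls z →
          (fun l => cls (Function.update I k z l)) = fun l => cls (I l) := by
        intro k z hz
        funext l
        by_cases hl : l = k
        · subst hl
          rw [Function.update_self, hz]
        · rw [Function.update_of_ne hl]
      have h1 : ∀ k, JJ inv jj b (I k) * F t (Function.update I k c) +
          JJ inv jj c (I k) * F t (Function.update I k b) =
          if (fun k => cls (I k)) = t then JJ inv jj b (I k) * coef φ (Function.update I k c) +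
            JJ inv jj c (I k) * coef φ (Function.update I k b) else 0 := by
        intro k
        have e1 : JJ inv jj b (I k) * F t (Function.update I k c) =
            if (fun k => cls (I k)) = t then JJ inv jj b (I k) *
              coef φ (Function.update I k c) else 0 := by
          by_cases h : I k = inv b
          · have h2 := htype k c (by rw [h, hbc])
            simp only [F]
            rw [h2]
            split_ifs
            · rfl
            · rw [mul_zero]
          · have h2 : JJ inv jj b (I k) = 0 := by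
              unfold JJ
              rw [if_neg h]
            rw [h2, zero_mul, zero_mul]
            split_ifs <;> rfl
        have e2 : JJ inv jj c (I k) * F t (Function.update I k b) =
            if (fun k => cls (I k)) = t then JJ inv jj c (I k) *
              coef φ (Function.update I k b) else 0 := by
          by_cases h : I k = inv c
          · have h2 := htype k b (by rw [h, ← hcls _ _ hbc, hinv])
            simp only [F]
            rw [h2]
            split_ifs
            · rfl
            · rw [mul_zero]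
          · have h2 : JJ inv jj c (I k) = 0 := by
              unfold JJ
              rw [if_neg h]
            rw [h2, zero_mul, zero_mul]
            split_ifs <;> rfl
        rw [e1, e2]
        split_ifs
        · rfl
        · rw [add_zero]
      rw [Finset.sum_congr rfl (fun k _ => h1 k)]
      by_cases hI : (fun k => cls (I k)) = t
      · simp only [if_pos hI]
        exact hrel b c hbc I
      · simp only [if_neg hI]
        exact Finset.sum_const_zero
    · by_contra h
      apply hI
      simp only [F]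
      rw [if_neg]
      rintro rfl
      exact h rfl
  have h1 : coef φ ∈ MatG cls inv jj (Fin m × Fin 2) m := by
    rw [hF]
    exact Submodule.sum_mem _ fun t _ => fftG hinv hjj hj0 hcls m (Fin m × Fin 2)
      (by simp [mul_comm]) t (hFt t)
  have h3 : MatG cls inv jj (Fin m × Fin 2) m ≤ (Submodule.span Ω (PT ρ χ m)).map coef := by
    unfold MatG
    rw [Submodule.span_le]
    rintro _ ⟨σ, c, rfl⟩
    refine ⟨mmG σ (fun l => BC (c l)), Submodule.subset_span ⟨σ, _, fun l => hBC _, rfl⟩, ?_⟩
    funext I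
    change mmG σ (fun l => BC (c l)) (fun k => e (I k)) = _
    rw [mmG_apply]
    exact Finset.prod_congr rfl fun s _ => hBC' _ _ _
  obtain ⟨φ', hφ', hφφ⟩ := h3 h1
  rw [← hinj hφφ]
  exact hφ'

end

end Run7.h237.AR
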