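import Mathlib
import Pool.Agent.Run7.h237.AR.TateLow
import Pool.Agent.Run7.h237.AR.Bal

/-!
# Tate classes of low degree and one Frobenius element with a defect in the angle rank
-/

set_option linter.unusedSectionVars false
set_option autoImplicit false

namespace Run7.h237.AR

open NumberField Module Pool.Agent.H204R3.CM Pool.Agent.H204R3.SP TensorProduct IntermediateField
  Pool.Agent.H204R3.GP

noncomputable section

/-- The main theorem: Tate forms are combinations of products of Tate forms of degree two. -/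
theorem tate_of_frobenius_low {k : Type*} [Field k] [CharZero k] {V : Type*} [AddCommGroup V]
    [Module k V] [FiniteDimensional k V]
    {p : ℕ} [Fact p.Prime] {a : ℕ}
    {ι : Type*} [Fintype ι] {F : ι → Type*} [∀ i, Field (F i)] [∀ i, NumberField (F i)]
    [∀ i, IsCMField (F i)] {π : ∀ i, F i} (hgen : ∀ i, ℚ⟮π i⟯ = ⊤)
    (hw : ∀ i, π i * IsCMField.complexConj (F i) (π i) = (p : F i) ^ a)
    {r : ℕ} (hr1 : 1 ≤ r) (hr : ∀ J : Finset ι, J.Nonempty →
      2 * r * (∑ i ∈ J, finrank ℚ (maximalRealSubfield (F i)) -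
        angleRank ((p : ℝ) ^ a) (fun i : J => π i)) <
          ∑ i ∈ J, finrank ℚ (maximalRealSubfield (F i)))
    {Γ : Type*} [Group Γ] (ρ : Representation k Γ V) (χ : Γ →* k)
    (ω : V →ₗ[k] V →ₗ[k] k) (halt : ∀ v, ω v v = 0) (hnd : ∀ u, (∀ v, ω v u = 0) → u = 0)
    (hωρ : ∀ s u v, ω (ρ s u) (ρ s v) = χ s * ω u v)
    (hss : ∀ Δ : Subgroup Γ, Δ.FiniteIndex → SemiUnder (ρ '' (Δ : Set Γ)))
    (γ : Γ) (hχ : χ γ = (p : k) ^ a)
    (hγ : (ρ γ).charpoly = ∏ i, (minpoly ℚ (π i)).map (algebraMap ℚ k))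
    {m : ℕ} (hm : m ≤ r) (φ : MultilinearMap k (fun _ : Fin m × Fin 2 => V) k)
    (hφ : IsTate ρ χ m φ) :
    φ ∈ Submodule.span k (PT ρ χ m) := by
  classical
  obtain ⟨L, hL1, hL2, j, h⟩ := exists_galois F
  obtain ⟨Ω, hΩ, ⟨jΩ⟩⟩ := exists_finite_ext k L
  have hp : p.Prime := Fact.out
  have hq : (0 : ℚ) < (p : ℚ) ^ a := pow_pos (by exact_mod_cast hp.pos) _
  have hqr : ((((p : ℚ) ^ a : ℚ)) : ℝ) = (p : ℝ) ^ a := by push_cast; rfl
  have hweil : ∀ i, ∀ φ : F i →+* ℂ, ‖φ (π i)‖ ^ 2 = (((p : ℚ) ^ a : ℚ) : ℝ) := by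
    intro i φ
    have h1 := congrArg φ (hw i)
    rw [map_mul, IsCMField.complexEmbedding_complexConj, map_pow, map_natCast, Complex.mul_conj,
      Complex.normSq_eq_norm_sq] at h1
    rw [hqr]
    exact_mod_cast h1
  have hbalG : ∀ {m : ℕ}, m ≤ r → ∀ {M : ℕ}, 0 < M →
      ∀ (I : Fin m × Fin 2 → (Σ i, (F i →+* L))),
      ∏ l, (val π (I l)) ^ M = ((p : L) ^ a) ^ (m * M) → ∀ y : (Σ i, (F i →+* L)),
        (Finset.univ.filter (fun l => I l = y)).card =
          (Finset.univ.filter (fun l => I l = bar y)).card := by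
    intro m hm M hM I hprod y
    refine balanced hq hweil j h (r := r) (by rw [hqr]; exact hr) ?_ I hM ?_ y
    · rw [Fintype.card_prod, Fintype.card_fin, Fintype.card_fin]; omega
    · rw [Fintype.card_prod, Fintype.card_fin, Fintype.card_fin]
      have h2 : (∏ l, (I l).2 (π (I l).1)) ^ M = ((p : L) ^ a) ^ (m * M) := by
        rw [← Finset.prod_pow]
        exact hprod
      have h3 : ((((p : ℚ) ^ a : ℚ)) : L) = (p : L) ^ a := by push_cast; rfl
      rw [h3, mul_comm 2 M, pow_mul, h2]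
      generalize (p : L) ^ a = P
      rw [← pow_mul, ← pow_mul]
      congr 1
      ring
  have hinjv : Function.Injective (val π (L := L)) := by
    intro x y hxy
    let I : Fin 1 × Fin 2 → (Σ i, (F i →+* L)) := fun l => if l.2 = 0 then x else bar y
    have h1 := hbalG hr1 one_pos I (by
      rw [Fintype.prod_prod_type, Fin.prod_univ_one, Fin.prod_univ_two]
      simp only [I, if_true, Fin.one_eq_zero_iff, OfNat.ofNat_ne_one, if_false, pow_one, mul_one]
      rw [hxy]
      exact val_bar hw y) x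
    have h2 : 0 < (Finset.univ.filter (fun l => I l = x)).card := by
      rw [Finset.card_pos]
      exact ⟨(0, 0), by simp [I]⟩
    rw [h1, Finset.card_pos] at h2
    obtain ⟨l, hl⟩ := h2
    rw [Finset.mem_filter] at hl
    have h3 := hl.2
    simp only [I] at h3
    split_ifs at h3
    · exact absurd h3.symm (bar_ne x)
    · rw [← bar_bar x, ← h3, bar_bar]
  have hcardE : ∀ i, Fintype.card (F i →+* L) = finrank ℚ (F i) := fun i => card_emb j (h i)
  have hanti : ∀ u v, ω u v = -ω v u := by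
    intro u v
    have h1 := halt (u + v)
    simp only [map_add, LinearMap.add_apply, halt, zero_add, add_zero] at h1
    exact eq_neg_of_add_eq_zero_left (by rw [← h1]; ring)
  have hnd' : ∀ u, (∀ v, ω u v = 0) → u = 0 := by
    intro u hu
    apply hnd
    intro v
    rw [hanti, hu, neg_zero]
  let b := Module.finBasis k V
  have hTchar : (bcr ρ Ω γ).charpoly = ∏ i, (minpoly ℚ (π i)).map (algebraMap ℚ Ω) := by
    change ((ρ γ).baseChange Ω).charpoly = _
    rw [LinearMap.charpoly_baseChange, hγ, Polynomial.map_prod]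
    refine Finset.prod_congr rfl fun i _ => ?_
    rw [Polynomial.map_map]
    congr 1
  obtain ⟨e, he⟩ := exists_eigenbasisG (Ω := Ω) (L := L) hgen jΩ hcardE hinjv
    (bcr ρ Ω γ) hTchar
  have hantiΩ : ∀ u v, bcb Ω ω u v = -bcb Ω ω v u := by
    have h1 : bcb Ω ω = -(bcb Ω ω).flip := by
      refine (b.baseChange Ω).ext fun i => (b.baseChange Ω).ext fun l => ?_
      rw [LinearMap.neg_apply, LinearMap.neg_apply, LinearMap.flip_apply, Basis.baseChange_apply,
        Basis.baseChange_apply, bcb_one, bcb_one, hanti, map_neg]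
    intro u v
    exact congrArg (fun F : (Ω ⊗[k] V) →ₗ[Ω] (Ω ⊗[k] V) →ₗ[Ω] Ω => F u v) h1
  have hq : ∀ x y : Σ i, (F i →+* L), y ≠ bar x → bcb Ω ω (e x) (e y) = 0 := by
    intro x y hxy
    by_contra h0
    apply hxy
    have h1 := bcb_inv ρ χ (Ω := Ω) ω hωρ γ (e x) (e y)
    rw [he, he, map_smul, map_smul, LinearMap.smul_apply, smul_eq_mul, smul_eq_mul, bcc_apply, hχ,
      ← mul_assoc] at h1
    have h2 := mul_right_cancel₀ h0 h1
    have h3 : jΩ (val π y * val π x) = jΩ ((p : L) ^ a) := by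
      simp only [map_mul, map_pow, map_natCast] at h2 ⊢
      exact h2
    have h4 := jΩ.injective h3
    have h5 := val_bar (L := L) hw x
    have hx0 : val π x ≠ 0 := by
      intro h6
      rw [h6, zero_mul] at h5
      exact pow_ne_zero a (Nat.cast_ne_zero.2 (Fact.out : p.Prime).ne_zero) h5.symm
    apply hinjv
    apply mul_left_cancel₀ hx0
    rw [h5, mul_comm, h4]
  let jj : (Σ i, (F i →+* L)) → Ω := fun x => bcb Ω ω (e x) (e (bar x))
  have hjj : ∀ x, jj (bar x) = -jj x := by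
    intro x
    simp only [jj, bar_bar]
    exact hantiΩ _ _
  have hj0 : ∀ x, jj x ≠ 0 := by
    intro x h0
    apply e.ne_zero (bar x)
    apply bcb_nondeg b ω hnd hnd'
    have h1 : (bcb Ω ω).flip (e (bar x)) = 0 := by
      refine e.ext fun y => ?_
      rw [LinearMap.flip_apply, LinearMap.zero_apply]
      by_cases hy : bar x = bar y
      · have h2 : y = x := by rw [← bar_bar y, ← hy, bar_bar]
        rw [h2]
        exact h0
      · exact hq _ _ hy
    intro v
    exact congrArg (fun F : (Ω ⊗[k] V) →ₗ[Ω] Ω => F v) h1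
  have hω : ∀ x y, bcb Ω ω (e x) (e y) = JJ bar jj x y := by
    intro x y
    unfold JJ
    by_cases hy : y = bar x
    · rw [if_pos hy, hy]
    · rw [if_neg hy, hq x y hy]
  have hbal : ∀ (m : ℕ), m ≤ r → ∀ (φ : MultilinearMap Ω (fun _ : Fin m × Fin 2 => Ω ⊗[k] V) Ω),
      IsTate (bcr ρ Ω) (bcc χ Ω) m φ →
      ∀ I : Fin m × Fin 2 → (Σ i, (F i →+* L)), φ (fun l => e (I l)) ≠ 0 → ∀ y,
        (Finset.univ.filter (fun l => I l = y)).card =
          (Finset.univ.filter (fun l => I l = bar y)).card := by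
    rintro m hm φ ⟨Δ, hΔ, hφ⟩ I hI y
    obtain ⟨M, hM, -, hMΔ⟩ := Subgroup.exists_pow_mem_of_index_ne_zero hΔ.index_ne_zero γ
    refine hbalG hm hM I ?_ y
    have h1 := hφ (γ ^ M) hMΔ (fun l => e (I l))
    have h2 : ∀ (n : ℕ) (x : Σ i, (F i →+* L)),
        bcr ρ Ω (γ ^ n) (e x) = (jΩ (val π x)) ^ n • e x := by
      intro n x
      induction n with
      | zero => rw [pow_zero, pow_zero, one_smul, map_one]; rfl
      | succ n ih =>
        rw [pow_succ, map_mul, pow_succ, Module.End.mul_apply, he]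
        change bcr ρ Ω (γ ^ n) ((jΩ (val π x)) • e x) = _
        rw [map_smul, ih, smul_smul, mul_comm]
    simp only [h2] at h1
    rw [MultilinearMap.map_smul_univ, smul_eq_mul, map_pow, bcc_apply, hχ] at h1
    have h3 := mul_right_cancel₀ hI h1
    have h4 : jΩ (∏ l, (val π (I l)) ^ M) = jΩ (((p : L) ^ a) ^ (m * M)) := by
      simp only [map_prod, map_pow, map_natCast] at h3 ⊢
      rw [h3, ← pow_mul, ← pow_mul, ← pow_mul]
      congr 1
      ring
    exact jΩ.injective h4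
  refine tate_descentG (Ω := Ω) b ρ χ ?_ φ hφ
  intro φ' hφ'
  refine tateG_mem_low r e bar_bar bar_ne hjj hj0 (bcb Ω ω) hω (bcr ρ Ω) (bcc χ Ω) hr1
    (bcb_inv ρ χ ω hωρ) ?_ hbal hm φ' hφ'
  intro Δ hΔ U hU
  obtain ⟨P, hP1, hP2, hP3⟩ := exists_proj_baseChange (Ω := Ω) (ρ '' (Δ : Set Γ)) (hss Δ hΔ) U
    (by
      rintro _ ⟨s, hs, rfl⟩ u hu
      exact hU s hs u hu)
  exact ⟨P, hP1, hP2, fun s hs v => hP3 _ ⟨s, hs, rfl⟩ v⟩

end

end Run7.h237.AR
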